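import Pool.Agent.V1189.SB.Windows

/-!
# Windows of digits with small periods in several coprime bases: the inequality

Author: helper89.
-/

set_option autoImplicit false

namespace Pool.Agent.V1189.SB

open Finset

lemma floor_succ (b : ℕ) (hb : 2 ≤ b) (x : ℝ) (j : ℕ) :
    ⌊x * (b : ℝ) ^ (j + 1)⌋ = (b : ℤ) * ⌊x * (b : ℝ) ^ j⌋ + digit b x (j + 1) := by
  have hb0 : (b : ℝ) ≠ 0 := by
    have : b ≠ 0 := by omega
    exact_mod_cast this
  have h1 : ⌊x * (b : ℝ) ^ j⌋ = ⌊x * (b : ℝ) ^ (j + 1)⌋ / (b : ℤ) := by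
    rw [← Int.floor_div_natCast]
    congr 1
    rw [pow_succ]
    field_simp
  unfold digit
  rw [h1]
  exact (Int.mul_ediv_add_emod _ _).symm

lemma periodic (b : ℕ) (x : ℝ) (M w l : ℕ) (h : Simple b x M w l) (j : ℕ) (hj : w < j)
    (hj2 : j + M.factorial ≤ w + l) : digit b x (j + M.factorial) = digit b x j := by
  obtain ⟨p, hp1, hpM, hp⟩ := h
  obtain ⟨c, hc⟩ := Nat.dvd_factorial hp1 hpM
  have h1 : ∀ i, j + p * i ≤ w + l → digit b x (j + p * i) = digit b x j := by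
    intro i
    induction i with
    | zero => intro _; rw [mul_zero, add_zero]
    | succ i ih =>
      intro h2
      have h3 : j + p * (i + 1) = (j + p * i) + p := by ring
      rw [h3] at h2 ⊢
      rw [hp (j + p * i) (by omega) h2]
      exact ih (by omega)
  rw [hc]
  exact h1 c (by rw [← hc]; exact hj2)

/-- the integers -/
noncomputable def EE (b : ℕ) (P : ℕ) (c : ℤ) (x : ℝ) (j : ℕ) : ℤ :=
  c * (⌊x * (b : ℝ) ^ (j + P)⌋ - ⌊x * (b : ℝ) ^ j⌋)

lemma EE_window (b : ℕ) (hb : 2 ≤ b) (x : ℝ) (c : ℤ) (M w l : ℕ) (h : Simple b x M w l) (i : ℕ)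
    (hi : i ≤ l - M.factorial) :
    EE b M.factorial c x (w + i) = (b : ℤ) ^ i * EE b M.factorial c x w := by
  have hP := Nat.factorial_pos M
  induction i with
  | zero => rw [add_zero, pow_zero, one_mul]
  | succ i ih =>
    have h1 := ih (by omega)
    have h2 : EE b M.factorial c x (w + (i + 1)) = b * EE b M.factorial c x (w + i) +
        c * (digit b x (w + i + 1 + M.factorial) - digit b x (w + i + 1)) := by
      unfold EE
      have h3 := floor_succ b hb x (w + i)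
      have h4 := floor_succ b hb x (w + i + M.factorial)
      have h5 : w + (i + 1) + M.factorial = w + i + M.factorial + 1 := by ring
      have h6 : w + i + 1 + M.factorial = w + i + M.factorial + 1 := by ring
      rw [h5, h6, ← add_assoc w i 1, h3, h4]
      ring
    rw [h2, h1, periodic b x M w l h (w + i + 1) (by omega) (by omega)]
    ring

lemma EE_le (b : ℕ) (P : ℕ) (c : ℤ) (hc : 0 ≤ c) (x : ℝ) (j : ℕ) :
    |(c : ℝ) * ((b : ℝ) ^ P - 1) * x * (b : ℝ) ^ j - EE b P c x j| ≤ c := by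
  unfold EE
  have h1 : (c : ℝ) * ((b : ℝ) ^ P - 1) * x * (b : ℝ) ^ j -
      ((c * (⌊x * (b : ℝ) ^ (j + P)⌋ - ⌊x * (b : ℝ) ^ j⌋) : ℤ) : ℝ) =
      c * ((x * (b : ℝ) ^ (j + P) - ⌊x * (b : ℝ) ^ (j + P)⌋) -
        (x * (b : ℝ) ^ j - ⌊x * (b : ℝ) ^ j⌋)) := by
    push_cast
    rw [pow_add]
    ring
  have hcR : (0 : ℝ) ≤ c := by exact_mod_cast hc
  rw [h1, abs_mul, abs_of_nonneg hcR]
  have h2 := Int.floor_le (x * (b : ℝ) ^ (j + P))
  have h3 := Int.lt_floor_add_one (x * (b : ℝ) ^ (j + P))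
  have h4 := Int.floor_le (x * (b : ℝ) ^ j)
  have h5 := Int.lt_floor_add_one (x * (b : ℝ) ^ j)
  have h6 : |(x * (b : ℝ) ^ (j + P) - ⌊x * (b : ℝ) ^ (j + P)⌋) -
      (x * (b : ℝ) ^ j - ⌊x * (b : ℝ) ^ j⌋)| ≤ 1 := by
    rw [abs_le]
    constructor <;> linarith
  calc (c : ℝ) * _ ≤ c * 1 := mul_le_mul_of_nonneg_left h6 hcR
    _ = c := mul_one _

variable {k : ℕ}

/-- the core inequality with uniform constants -/
lemma core' (hk : 1 ≤ k) (b : Fin k → ℕ) (hb : ∀ κ, 2 ≤ b κ)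
    (hcop : ∀ κ κ', κ ≠ κ' → Nat.Coprime (b κ) (b κ')) (x : ℝ) (hx : Irrational x) (K : ℝ)
    (hK : 1 ≤ K) (r : ℕ) (ε : ℝ) (hε : 0 < ε) :
    ∃ (G : ℕ) (C : ℝ), ∀ q : Fin k → ℕ, (∀ κ, q κ ≤ r) →
      ∀ (N : ℝ) (s : ∀ κ, Fin (q κ + 1) → ℕ) (y : ∀ κ, Fin (q κ + 1) → ℤ),
      Conf b q x K G N s y →
      ((k : ℝ) - 1 - ε) * N ≤ ∑ κ, ∑ i, Real.log |(y κ i : ℝ)| + C := by
  classical
  have h1 := fun q : Fin k → ℕ => core hk b hb hcop x hx K hK q ε hε
  choose G C h1 using h1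
  refine ⟨∑ q ∈ Fintype.piFinset (fun _ : Fin k => range (r + 1)), G q,
    ∑ q ∈ Fintype.piFinset (fun _ : Fin k => range (r + 1)), |C q|, fun q hq N s y hC => ?_⟩
  have hmem : q ∈ Fintype.piFinset (fun _ : Fin k => range (r + 1)) := by
    rw [Fintype.mem_piFinset]
    intro κ
    rw [mem_range]
    have := hq κ
    omega
  have hG : G q ≤ ∑ q ∈ Fintype.piFinset (fun _ : Fin k => range (r + 1)), G q :=
    Finset.single_le_sum (f := G) (fun _ _ => Nat.zero_le _) hmem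
  have hCq : |C q| ≤ ∑ q ∈ Fintype.piFinset (fun _ : Fin k => range (r + 1)), |C q| :=
    Finset.single_le_sum (f := fun q => |C q|) (fun _ _ => abs_nonneg _) hmem
  have h2 := h1 q N s y ⟨hC.appr, hC.le, fun κ i j hij => by
    refine le_trans (mul_le_mul_of_nonneg_left ?_ (abs_nonneg _)) (hC.gap κ i j hij)
    have := hb κ
    exact pow_le_pow_right₀ (by exact_mod_cast (by omega : 1 ≤ b κ)) (by omega), hC.ne⟩
  linarith [le_abs_self (C q)]

set_option maxHeartbeats 4000000 in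
/-- **Windows with small periods in coprime bases.** -/
theorem main (b : Fin k → ℕ) (hb : ∀ κ, 2 ≤ b κ)
    (hcop : ∀ κ κ', κ ≠ κ' → Nat.Coprime (b κ) (b κ')) (x : ℝ) (hx : Irrational x) (r M : ℕ)
    (ε : ℝ) (hε : 0 < ε) :
    ∃ C : ℝ, ∀ N : ℝ, 0 ≤ N → ∀ w l : Fin k → Fin r → ℕ,
      (∀ κ, Windows (w κ) (l κ) ⌊N / Real.log (b κ)⌋₊) → (∀ κ i, Simple (b κ) x M (w κ i) (l κ i)) →
      ∑ κ, ∑ i, (l κ i : ℝ) * Real.log (b κ) ≤ (1 + ε) * N + C := by
  classical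
  rcases Nat.eq_zero_or_pos k with hk0 | hk
  · subst hk0
    refine ⟨0, fun N hN w l _ _ => ?_⟩
    simp only [Finset.univ_eq_empty, Finset.sum_empty]
    nlinarith
  have hbR : ∀ κ, (2 : ℝ) ≤ b κ := fun κ => by exact_mod_cast hb κ
  have hbpos : ∀ κ, (0 : ℝ) < b κ := fun κ => by linarith [hbR κ]
  have hlogb : ∀ κ, 0 < Real.log (b κ) := fun κ => Real.log_pos (by linarith [hbR κ])
  obtain ⟨P, hP⟩ : ∃ P, P = M.factorial := ⟨_, rfl⟩
  have hP0 : 1 ≤ P := by rw [hP]; exact Nat.factorial_pos M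
  have hfac : ∀ κ, (1 : ℤ) ≤ (b κ : ℤ) ^ P - 1 := by
    intro κ
    have h1 : (2 : ℤ) ≤ b κ := by exact_mod_cast hb κ
    have h2 : (b κ : ℤ) ^ 1 ≤ (b κ : ℤ) ^ P := pow_le_pow_right₀ (by omega) hP0
    rw [pow_one] at h2
    omega
  obtain ⟨T, hT⟩ : ∃ T : ℤ, T = ∏ κ, ((b κ : ℤ) ^ P - 1) := ⟨_, rfl⟩
  obtain ⟨c, hc⟩ : ∃ c : Fin k → ℤ, c = fun κ => ∏ ν ∈ univ.erase κ, ((b ν : ℤ) ^ P - 1) := ⟨_, rfl⟩
  have hc1 : ∀ κ, 1 ≤ c κ := fun κ => by
    rw [hc]
    have h1 : (0 : ℤ) < ∏ ν ∈ univ.erase κ, ((b ν : ℤ) ^ P - 1) :=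
      Finset.prod_pos fun ν _ => by linarith [hfac ν]
    exact h1
  have hcT : ∀ κ, c κ * ((b κ : ℤ) ^ P - 1) = T := fun κ => by
    rw [hc, hT]
    simp only
    rw [mul_comm]
    exact Finset.mul_prod_erase univ (fun κ => (b κ : ℤ) ^ P - 1) (mem_univ κ)
  have hcleT : ∀ κ, c κ ≤ T := fun κ => by
    rw [← hcT κ]
    nlinarith [hc1 κ, hfac κ]
  have hT1 : 1 ≤ T := (hc1 ⟨0, hk⟩).trans (hcleT _)
  have hTR : (1 : ℝ) ≤ T := by exact_mod_cast hT1
  have hx' : Irrational ((T : ℝ) * x) := hx.intCast_mul (by omega)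
  obtain ⟨K, hK⟩ : ∃ K : ℝ, K = T * (2 + ∑ κ, (b κ : ℝ)) := ⟨_, rfl⟩
  have hbsum : ∀ κ, (b κ : ℝ) ≤ ∑ κ, (b κ : ℝ) := fun κ =>
    Finset.single_le_sum (f := fun κ => (b κ : ℝ)) (fun κ _ => (hbpos κ).le) (mem_univ κ)
  have hbs0 : 0 ≤ ∑ κ, (b κ : ℝ) := Finset.sum_nonneg fun κ _ => (hbpos κ).le
  have hK1 : 1 ≤ K := by rw [hK]; nlinarith
  obtain ⟨G, C, hcore⟩ := core' hk b hb hcop ((T : ℝ) * x) hx' K hK1 r ε hε
  refine ⟨C + ∑ κ, ((r : ℝ) * P * Real.log (b κ) + (r : ℝ) * (G * Real.log (b κ)) +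
    (r + 1) * Real.log (2 * T + |(T : ℝ) * x|)), fun N hN w l hW hS => ?_⟩
  obtain ⟨n, hn⟩ : ∃ n : Fin k → ℕ, n = fun κ => ⌊N / Real.log (b κ)⌋₊ := ⟨_, rfl⟩
  have hnle : ∀ κ, (n κ : ℝ) * Real.log (b κ) ≤ N := by
    intro κ
    have h1 : (n κ : ℝ) ≤ N / Real.log (b κ) := by
      rw [hn]
      exact Nat.floor_le (div_nonneg hN (hlogb κ).le)
    rwa [le_div_iff₀ (hlogb κ)] at h1
  have hnlt : ∀ κ, N < ((n κ : ℝ) + 1) * Real.log (b κ) := by
    intro κ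
    have h1 : N / Real.log (b κ) < (n κ : ℝ) + 1 := by
      rw [hn]
      exact Nat.lt_floor_add_one _
    rwa [div_lt_iff₀ (hlogb κ)] at h1
  have hEE : ∀ κ j, |(T : ℝ) * x * (b κ : ℝ) ^ j - EE (b κ) P (c κ) x j| ≤ T := by
    intro κ j
    have h1 := EE_le (b κ) P (c κ) (by linarith [hc1 κ]) x j
    have h2 : (c κ : ℝ) * ((b κ : ℝ) ^ P - 1) = T := by exact_mod_cast hcT κ
    rw [h2] at h1
    exact h1.trans (by exact_mod_cast hcleT κ)
  have hpieces := fun κ => pieces (b κ) (hb κ) ((T : ℝ) * x) T hTR (EE (b κ) P (c κ) x) (hEE κ) G r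
    (w κ) (fun i => l κ i - P) (n κ) ⟨fun i j hij => by
      have h9 := (hW κ).1 i j hij
      show w κ i + (l κ i - P) ≤ w κ j
      omega, fun i => by
      have h9 := (hW κ).2 i
      rw [hn]
      show w κ i + (l κ i - P) ≤ ⌊N / Real.log (b κ)⌋₊
      omega⟩ (fun i => by
      rw [hP]
      exact EE_window (b κ) (hb κ) x (c κ) M (w κ i) (l κ i) (hS κ i) _ le_rfl)
  choose q s y h1 h2 h3 h4 h5 h6 using hpieces
  have hconf : Conf b q ((T : ℝ) * x) K G N s y := by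
    refine ⟨fun κ => ?_, fun κ i => ?_, fun κ i j hij => ?_, h5⟩
    · have h7 : ∑ i, (y κ i : ℝ) / (b κ : ℝ) ^ s κ i =
          (EE (b κ) P (c κ) x (n κ) : ℝ) / (b κ : ℝ) ^ n κ := by
        rw [h2 κ]
        push_cast
        rw [Finset.sum_div]
        refine Finset.sum_congr rfl fun i _ => ?_
        rw [pow_sub₀ _ (hbpos κ).ne' (h3 κ i)]
        have := pow_pos (hbpos κ) (n κ)
        have := pow_pos (hbpos κ) (s κ i)
        field_simp
      have h8 := hEE κ (n κ)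
      have hp := pow_pos (hbpos κ) (n κ)
      have h9 : (T : ℝ) * x - (EE (b κ) P (c κ) x (n κ) : ℝ) / (b κ : ℝ) ^ n κ =
          ((T : ℝ) * x * (b κ : ℝ) ^ n κ - EE (b κ) P (c κ) x (n κ)) / (b κ : ℝ) ^ n κ := by
        field_simp
      rw [h7, h9, abs_div, abs_of_pos hp, div_le_iff₀ hp]
      have h10 : Real.exp N ≤ (b κ : ℝ) * (b κ : ℝ) ^ n κ := by
        rw [← pow_succ', ← Real.exp_log (pow_pos (hbpos κ) (n κ + 1)), Real.log_pow]
        refine Real.exp_le_exp.2 ?_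
        have := hnlt κ
        push_cast
        linarith
      have h11 : 1 ≤ Real.exp (-N) * ((b κ : ℝ) * (b κ : ℝ) ^ n κ) := by
        have h12 : Real.exp (-N) * Real.exp N = 1 := by
          rw [← Real.exp_add, neg_add_cancel, Real.exp_zero]
        rw [← h12]
        exact mul_le_mul_of_nonneg_left h10 (Real.exp_pos _).le
      refine h8.trans ?_
      have h13 : (T : ℝ) * (b κ) ≤ K := by
        rw [hK]
        exact mul_le_mul_of_nonneg_left (by linarith [hbsum κ]) (by linarith)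
      calc (T : ℝ) = T * 1 := (mul_one _).symm
        _ ≤ T * (Real.exp (-N) * ((b κ : ℝ) * (b κ : ℝ) ^ n κ)) :=
          mul_le_mul_of_nonneg_left h11 (by linarith)
        _ = (T * b κ) * (Real.exp (-N) * (b κ : ℝ) ^ n κ) := by ring
        _ ≤ K * (Real.exp (-N) * (b κ : ℝ) ^ n κ) :=
          mul_le_mul_of_nonneg_right h13 (by positivity)
        _ = _ := by ring
    · have h7 : (b κ : ℝ) ^ s κ i ≤ (b κ : ℝ) ^ n κ :=
        pow_le_pow_right₀ (by linarith [hbR κ]) (h3 κ i)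
      refine h7.trans ?_
      rw [← Real.exp_log (pow_pos (hbpos κ) (n κ)), Real.log_pow]
      exact Real.exp_le_exp.2 (hnle κ)
    · refine (h4 κ i j hij).trans (mul_le_mul_of_nonneg_right ?_ (by positivity))
      rw [hK]
      nlinarith
  have h7 := hcore q h1 N s y hconf
  have h8 : ∑ κ, ∑ i, Real.log |(y κ i : ℝ)| ≤ ∑ κ, (N - ∑ i, (l κ i : ℝ) * Real.log (b κ) +
      ((r : ℝ) * P * Real.log (b κ) + (r : ℝ) * (G * Real.log (b κ)) +
        (r + 1) * Real.log (2 * T + |(T : ℝ) * x|))) := by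
    refine Finset.sum_le_sum fun κ _ => (h6 κ).trans ?_
    have h9 : ∑ i, (l κ i : ℝ) ≤ ∑ i, ((l κ i - P : ℕ) : ℝ) + (r : ℝ) * P := by
      have h10 : ∑ i : Fin r, (l κ i : ℝ) ≤ ∑ i : Fin r, (((l κ i - P : ℕ) : ℝ) + P) := by
        refine Finset.sum_le_sum fun i _ => ?_
        have : l κ i ≤ (l κ i - P) + P := by omega
        exact_mod_cast this
      rw [Finset.sum_add_distrib, Finset.sum_const, Finset.card_univ, Fintype.card_fin,
        nsmul_eq_mul] at h10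
      exact h10
    have h11 := mul_le_mul_of_nonneg_right h9 (hlogb κ).le
    rw [← Finset.sum_mul]
    have h12 := hnle κ
    nlinarith
  rw [Finset.sum_add_distrib, Finset.sum_sub_distrib, Finset.sum_const, Finset.card_univ,
    Fintype.card_fin, nsmul_eq_mul] at h8
  linarith

end Pool.Agent.V1189.SB
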