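import Pool.Agent.V1189.RT.FormsS

/-!
# Sums of few terms in several coprime bases which approximate an irrational number

Author: helper89. From the subspace theorem of the library (`Pool.Agent.V1189.RT.subZ`).
-/

set_option autoImplicit false

namespace Pool.Agent.V1189.SB

open Finset Filter Topology Pool.Agent.TH461.SST

variable {k : ℕ}

/-- in every base `b κ` the number `x` is approximated by a sum of `q κ + 1` terms
`y κ i / b κ ^ s κ i` with gaps of length `G` between them -/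
structure Conf (b q : Fin k → ℕ) (x K : ℝ) (G : ℕ) (N : ℝ) (s : ∀ κ, Fin (q κ + 1) → ℕ)
    (y : ∀ κ, Fin (q κ + 1) → ℤ) : Prop where
  appr : ∀ κ, |x - ∑ i, (y κ i : ℝ) / (b κ : ℝ) ^ s κ i| ≤ K * Real.exp (-N)
  le : ∀ κ i, (b κ : ℝ) ^ s κ i ≤ Real.exp N
  gap : ∀ κ i j, i < j → |(y κ j : ℝ)| * (b κ : ℝ) ^ (s κ i + G) ≤ K * (b κ : ℝ) ^ s κ j
  ne : ∀ κ i, i ≠ 0 → y κ i ≠ 0

section one

variable {b q : Fin k → ℕ} {x K : ℝ} {G : ℕ} {N : ℝ} {s : ∀ κ, Fin (q κ + 1) → ℕ}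
    {y : ∀ κ, Fin (q κ + 1) → ℤ}

/-- the terms -/
noncomputable def tm (b : Fin k → ℕ) {q : Fin k → ℕ} (s : ∀ κ, Fin (q κ + 1) → ℕ)
    (y : ∀ κ, Fin (q κ + 1) → ℤ) (κ : Fin k) (i : Fin (q κ + 1)) : ℝ :=
  (y κ i : ℝ) / (b κ : ℝ) ^ s κ i

lemma Conf.small (hb : ∀ κ, 2 ≤ b κ) (hK : 1 ≤ K) (h : Conf b q x K G N s y) (κ : Fin k)
    (i j : Fin (q κ + 1)) (hij : i < j) :
    |tm b s y κ j| ≤ K * (1 / 2) ^ G * (1 / (b κ : ℝ) ^ s κ i) := by
  have hb2 : (2 : ℝ) ≤ b κ := by exact_mod_cast hb κ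
  have hb0 : (0 : ℝ) < b κ := by linarith
  have h1 := h.gap κ i j hij
  unfold tm
  rw [abs_div, abs_of_pos (pow_pos hb0 _), div_le_iff₀ (pow_pos hb0 _)]
  have h2 : (2 : ℝ) ^ G ≤ (b κ : ℝ) ^ G := pow_le_pow_left₀ (by norm_num) hb2 _
  have h3 : |(y κ j : ℝ)| * ((b κ : ℝ) ^ s κ i * 2 ^ G) ≤ K * (b κ : ℝ) ^ s κ j := by
    refine le_trans ?_ h1
    rw [pow_add]
    exact mul_le_mul_of_nonneg_left (mul_le_mul_of_nonneg_left h2 (by positivity)) (abs_nonneg _)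
  have h4 : (0 : ℝ) < (b κ : ℝ) ^ s κ i * 2 ^ G := by positivity
  rw [one_div, inv_pow, one_div]
  rw [← le_div_iff₀ h4] at h3
  refine h3.trans (le_of_eq ?_)
  field_simp

lemma Conf.small1 (hb : ∀ κ, 2 ≤ b κ) (hK : 1 ≤ K) (h : Conf b q x K G N s y) (κ : Fin k)
    (j : Fin (q κ + 1)) (hj : j ≠ 0) : |tm b s y κ j| ≤ K * (1 / 2) ^ G := by
  have h1 := h.small hb hK κ 0 j (Fin.pos_of_ne_zero hj)
  refine h1.trans ?_
  have hb2 : (1 : ℝ) ≤ b κ := by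
    have := hb κ
    exact_mod_cast (by omega : 1 ≤ b κ)
  have h2 : 1 / (b κ : ℝ) ^ s κ 0 ≤ 1 := by
    rw [div_le_one (by positivity)]
    exact one_le_pow₀ hb2
  calc _ ≤ K * (1 / 2) ^ G * 1 := mul_le_mul_of_nonneg_left h2 (by positivity)
    _ = _ := mul_one _

/-- the total error -/
noncomputable def err (q : Fin k → ℕ) (K : ℝ) (G : ℕ) (N : ℝ) : ℝ :=
  K * Real.exp (-N) + (∑ κ, ((q κ : ℝ) + 1)) * (K * (1 / 2) ^ G)

lemma Conf.top (hb : ∀ κ, 2 ≤ b κ) (hK : 1 ≤ K) (h : Conf b q x K G N s y) (κ : Fin k) :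
    |x - tm b s y κ 0| ≤ err q K G N := by
  have h1 := h.appr κ
  rw [Fin.sum_univ_succ] at h1
  have h2 : |∑ i : Fin (q κ), (y κ i.succ : ℝ) / (b κ : ℝ) ^ s κ i.succ| ≤
      (∑ κ, ((q κ : ℝ) + 1)) * (K * (1 / 2) ^ G) := by
    refine (Finset.abs_sum_le_sum_abs _ _).trans ?_
    have h3 : ∑ i : Fin (q κ), |(y κ i.succ : ℝ) / (b κ : ℝ) ^ s κ i.succ| ≤
        ∑ _i : Fin (q κ), K * (1 / 2) ^ G :=
      Finset.sum_le_sum fun i _ => h.small1 hb hK κ i.succ (Fin.succ_ne_zero i)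
    rw [Finset.sum_const, Finset.card_univ, Fintype.card_fin, nsmul_eq_mul] at h3
    refine h3.trans (mul_le_mul_of_nonneg_right ?_ (by positivity))
    have h4 : (q κ : ℝ) + 1 ≤ ∑ κ, ((q κ : ℝ) + 1) :=
      Finset.single_le_sum (f := fun κ => (q κ : ℝ) + 1) (fun _ _ => by positivity) (mem_univ κ)
    linarith
  have h3 : |x - tm b s y κ 0| ≤ |x - ((y κ 0 : ℝ) / (b κ : ℝ) ^ s κ 0 +
      ∑ i : Fin (q κ), (y κ i.succ : ℝ) / (b κ : ℝ) ^ s κ i.succ)| +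
      |∑ i : Fin (q κ), (y κ i.succ : ℝ) / (b κ : ℝ) ^ s κ i.succ| := by
    refine le_trans (le_of_eq ?_) (abs_add_le _ _)
    congr 1
    unfold tm
    ring
  unfold err
  linarith

end one

/-- the product over the other bases -/
def cof (b m : Fin k → ℕ) (κ : Fin k) : ℤ := ∏ μ ∈ univ.erase κ, (b μ : ℤ) ^ m μ

lemma cof_mul (b m : Fin k → ℕ) (κ : Fin k) :
    (b κ : ℤ) ^ m κ * cof b m κ = ∏ μ, (b μ : ℤ) ^ m μ := by
  unfold cof
  exact Finset.mul_prod_erase univ (fun μ => (b μ : ℤ) ^ m μ) (mem_univ κ)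

/-- a relation between the terms gives integers -/
lemma integral (b q : Fin k → ℕ) (hcop : ∀ κ κ', κ ≠ κ' → Nat.Coprime (b κ) (b κ'))
    (s : ∀ κ, Fin (q κ + 1) → ℕ) (y : ∀ κ, Fin (q κ + 1) → ℤ) (m : Fin k → ℕ)
    (hb : ∀ κ, 2 ≤ b κ) (hm : ∀ κ i, s κ i ≤ m κ) (c : ∀ κ, Fin (q κ + 1) → ℤ)
    (h0 : ∑ κ, ∑ i, c κ i * (y κ i * (b κ : ℤ) ^ (m κ - s κ i) * cof b m κ) = 0) (κ : Fin k) :
    ∃ z : ℤ, ∑ i, (c κ i : ℝ) * tm b s y κ i = z := by
  classical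
  have h1 : ∑ κ, (∑ i, c κ i * (y κ i * (b κ : ℤ) ^ (m κ - s κ i))) * cof b m κ = 0 := by
    rw [← h0]
    refine Finset.sum_congr rfl fun κ _ => ?_
    rw [Finset.sum_mul]
    exact Finset.sum_congr rfl fun i _ => by ring
  rw [← Finset.add_sum_erase univ _ (mem_univ κ)] at h1
  have h2 : (b κ : ℤ) ^ m κ ∣ ∑ ν ∈ univ.erase κ,
      (∑ i, c ν i * (y ν i * (b ν : ℤ) ^ (m ν - s ν i))) * cof b m ν := by
    refine Finset.dvd_sum fun ν hν => Dvd.dvd.mul_left ?_ _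
    unfold cof
    exact Finset.dvd_prod_of_mem (fun μ => (b μ : ℤ) ^ m μ)
      (mem_erase.2 ⟨(Finset.ne_of_mem_erase hν).symm, mem_univ κ⟩)
  have h3 : (b κ : ℤ) ^ m κ ∣ (∑ i, c κ i * (y κ i * (b κ : ℤ) ^ (m κ - s κ i))) * cof b m κ :=
    (Int.dvd_add_left h2).1 (by rw [h1]; exact dvd_zero _)
  have h4 : IsCoprime ((b κ : ℤ) ^ m κ) (cof b m κ) := by
    unfold cof
    refine IsCoprime.prod_right fun μ hμ => ?_
    exact IsCoprime.pow (Nat.isCoprime_iff_coprime.2 (hcop κ μ (Finset.ne_of_mem_erase hμ).symm))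
  obtain ⟨z, hz⟩ := h4.dvd_of_dvd_mul_right h3
  refine ⟨z, ?_⟩
  have hbκ : (0 : ℝ) < b κ := by
    have := hb κ
    exact_mod_cast (by omega : 0 < b κ)
  have h5 : (∑ i, (c κ i : ℝ) * ((y κ i : ℝ) * (b κ : ℝ) ^ (m κ - s κ i))) =
      (b κ : ℝ) ^ m κ * z := by
    exact_mod_cast hz
  have h6 : (∑ i, (c κ i : ℝ) * tm b s y κ i) * (b κ : ℝ) ^ m κ = (b κ : ℝ) ^ m κ * z := by
    rw [← h5, Finset.sum_mul]
    refine Finset.sum_congr rfl fun i _ => ?_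
    unfold tm
    rw [pow_sub₀ _ hbκ.ne' (hm κ i)]
    field_simp
  have h7 : (0 : ℝ) < (b κ : ℝ) ^ m κ := pow_pos hbκ _
  rw [mul_comm] at h6
  exact mul_left_cancel₀ h7.ne' h6

/-- no fixed relation holds between the terms if the gaps are long -/
lemma norel (b q : Fin k → ℕ) (hb : ∀ κ, 2 ≤ b κ) {x K : ℝ} (hx : Irrational x) (hK : 1 ≤ K)
    (c : ∀ κ, Fin (q κ + 1) → ℤ) (κ : Fin k) (hc : ∃ i, c κ i ≠ 0) :
    ∃ δ : ℝ, 0 < δ ∧ ∀ (G : ℕ) (N : ℝ) (s : ∀ κ, Fin (q κ + 1) → ℕ) (y : ∀ κ, Fin (q κ + 1) → ℤ),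
      Conf b q x K G N s y → err q K G N < δ → ∀ z : ℤ, ∑ i, (c κ i : ℝ) * tm b s y κ i ≠ z := by
  classical
  obtain ⟨cm, hcm⟩ : ∃ cm : ℝ, cm = 1 + ∑ i, |(c κ i : ℝ)| := ⟨_, rfl⟩
  have hcm1 : 1 ≤ cm := by
    have : 0 ≤ ∑ i, |(c κ i : ℝ)| := Finset.sum_nonneg fun i _ => abs_nonneg _
    rw [hcm]; linarith
  have hbκ2 : (2 : ℝ) ≤ b κ := by exact_mod_cast hb κ
  have hbκ : (0 : ℝ) < b κ := by linarith
  have herr : ∀ (G : ℕ) (N : ℝ), K * (1 / 2) ^ G ≤ err q K G N := by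
    intro G N
    unfold err
    have h1 : (1 : ℝ) ≤ ∑ κ, ((q κ : ℝ) + 1) := by
      have h4 : (q κ : ℝ) + 1 ≤ ∑ κ, ((q κ : ℝ) + 1) :=
        Finset.single_le_sum (f := fun κ => (q κ : ℝ) + 1) (fun _ _ => by positivity) (mem_univ κ)
      have h5 : (0 : ℝ) ≤ q κ := Nat.cast_nonneg _
      linarith
    have h2 : (0 : ℝ) ≤ K * (1 / 2) ^ G := by positivity
    have h3 : 0 ≤ K * Real.exp (-N) := by positivity
    nlinarith
  by_cases h0 : c κ 0 = 0
  · -- the first nonzero coefficient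
    have hex : (univ.filter fun i => c κ i ≠ 0).Nonempty := by
      obtain ⟨i, hi⟩ := hc
      exact ⟨i, by simp [hi]⟩
    obtain ⟨i0, hi0⟩ : ∃ i0, i0 = (univ.filter fun i => c κ i ≠ 0).min' hex := ⟨_, rfl⟩
    have hi0c : c κ i0 ≠ 0 := by
      have := Finset.min'_mem _ hex
      rw [← hi0] at this
      exact (mem_filter.1 this).2
    have hi00 : i0 ≠ 0 := by
      intro h
      rw [h] at hi0c
      exact hi0c h0
    have hlt : ∀ i, i < i0 → c κ i = 0 := by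
      intro i hi
      by_contra h
      have h1 := Finset.min'_le (univ.filter fun i => c κ i ≠ 0) i (by simp [h])
      rw [← hi0] at h1
      exact absurd hi (not_lt.2 h1)
    refine ⟨1 / (2 * cm), by positivity, fun G N s y hC hE z hz => ?_⟩
    have hE2 : cm * (K * (1 / 2) ^ G) < 1 / 2 := by
      have h1 := (herr G N).trans_lt hE
      rw [lt_div_iff₀ (by positivity)] at h1
      linarith
    have hz0 : z = 0 := by
      by_contra hne
      have h1 : (1 : ℝ) ≤ |(z : ℝ)| := by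
        have : (1 : ℤ) ≤ |z| := Int.one_le_abs hne
        exact_mod_cast this
      rw [← hz] at h1
      have h2 : |∑ i, (c κ i : ℝ) * tm b s y κ i| ≤ ∑ i, |(c κ i : ℝ)| * (K * (1 / 2) ^ G) := by
        refine (Finset.abs_sum_le_sum_abs _ _).trans (Finset.sum_le_sum fun i _ => ?_)
        rw [abs_mul]
        by_cases hi : i = 0
        · rw [hi, h0]
          simp
        · exact mul_le_mul_of_nonneg_left (hC.small1 hb hK κ i hi) (abs_nonneg _)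
      rw [← Finset.sum_mul] at h2
      have h3 : (∑ i, |(c κ i : ℝ)|) * (K * (1 / 2) ^ G) ≤ cm * (K * (1 / 2) ^ G) :=
        mul_le_mul_of_nonneg_right (by rw [hcm]; linarith) (by positivity)
      linarith
    rw [hz0, Int.cast_zero] at hz
    rw [← Finset.add_sum_erase univ _ (mem_univ i0)] at hz
    have h1 : |∑ i ∈ univ.erase i0, (c κ i : ℝ) * tm b s y κ i| ≤
        ∑ i ∈ univ.erase i0, |(c κ i : ℝ)| * (K * (1 / 2) ^ G * (1 / (b κ : ℝ) ^ s κ i0)) := by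
      refine (Finset.abs_sum_le_sum_abs _ _).trans (Finset.sum_le_sum fun i hi => ?_)
      rw [abs_mul]
      rcases lt_trichotomy i i0 with h | h | h
      · rw [hlt i h]
        simp
      · exact absurd h (Finset.ne_of_mem_erase hi)
      · exact mul_le_mul_of_nonneg_left (hC.small hb hK κ i0 i h) (abs_nonneg _)
    rw [← Finset.sum_mul] at h1
    have h2 : (∑ i ∈ univ.erase i0, |(c κ i : ℝ)|) ≤ cm := by
      rw [hcm]
      have := Finset.sum_le_sum_of_subset_of_nonneg (f := fun i => |(c κ i : ℝ)|)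
        (Finset.erase_subset i0 univ) (fun i _ _ => abs_nonneg _)
      linarith
    have h3 : |(c κ i0 : ℝ) * tm b s y κ i0| =
        |∑ i ∈ univ.erase i0, (c κ i : ℝ) * tm b s y κ i| := by
      rw [← abs_neg, ← eq_neg_of_add_eq_zero_right hz]
    have h4 : 1 / (b κ : ℝ) ^ s κ i0 ≤ |(c κ i0 : ℝ) * tm b s y κ i0| := by
      rw [abs_mul]
      have h5 : (1 : ℝ) ≤ |(c κ i0 : ℝ)| := by
        have : (1 : ℤ) ≤ |c κ i0| := Int.one_le_abs hi0c
        exact_mod_cast this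
      have h6 : (1 : ℝ) ≤ |(y κ i0 : ℝ)| := by
        have : (1 : ℤ) ≤ |y κ i0| := Int.one_le_abs (hC.ne κ i0 hi00)
        exact_mod_cast this
      have h7 : 1 / (b κ : ℝ) ^ s κ i0 ≤ |tm b s y κ i0| := by
        unfold tm
        rw [abs_div, abs_of_pos (pow_pos hbκ _)]
        exact div_le_div_of_nonneg_right h6 (by positivity)
      calc 1 / (b κ : ℝ) ^ s κ i0 = 1 * (1 / (b κ : ℝ) ^ s κ i0) := (one_mul _).symm
        _ ≤ _ := mul_le_mul h5 h7 (by positivity) (by positivity)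
    have h5 : 1 / (b κ : ℝ) ^ s κ i0 ≤ cm * (K * (1 / 2) ^ G) * (1 / (b κ : ℝ) ^ s κ i0) := by
      refine h4.trans ((le_of_eq h3).trans (h1.trans ?_))
      have h6 := mul_le_mul_of_nonneg_right h2
        (by positivity : 0 ≤ K * (1 / 2) ^ G * (1 / (b κ : ℝ) ^ s κ i0))
      refine h6.trans (le_of_eq ?_)
      ring
    have h6 : 0 < 1 / (b κ : ℝ) ^ s κ i0 := by positivity
    nlinarith
  · have hirr : Irrational ((c κ 0 : ℝ) * x) := by
      have := hx.intCast_mul h0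
      exact this
    have hδ : 0 < |(c κ 0 : ℝ) * x - round ((c κ 0 : ℝ) * x)| := by
      rw [abs_pos, sub_ne_zero]
      exact hirr.ne_int _
    refine ⟨|(c κ 0 : ℝ) * x - round ((c κ 0 : ℝ) * x)| / (2 * cm), by positivity,
      fun G N s y hC hE z hz => ?_⟩
    rw [lt_div_iff₀ (by positivity)] at hE
    have h1 := round_le ((c κ 0 : ℝ) * x) z
    rw [← hz, Fin.sum_univ_succ] at h1
    have h2 : |(c κ 0 : ℝ) * x - ((c κ 0 : ℝ) * tm b s y κ 0 +
        ∑ i : Fin (q κ), (c κ i.succ : ℝ) * tm b s y κ i.succ)| ≤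
        |(c κ 0 : ℝ)| * err q K G N + ∑ i : Fin (q κ), |(c κ i.succ : ℝ)| * err q K G N := by
      have h3 : (c κ 0 : ℝ) * x - ((c κ 0 : ℝ) * tm b s y κ 0 +
          ∑ i : Fin (q κ), (c κ i.succ : ℝ) * tm b s y κ i.succ) =
          (c κ 0 : ℝ) * (x - tm b s y κ 0) +
            -∑ i : Fin (q κ), (c κ i.succ : ℝ) * tm b s y κ i.succ := by ring
      rw [h3]
      refine (abs_add_le _ _).trans (add_le_add ?_ ?_)
      · rw [abs_mul]
        exact mul_le_mul_of_nonneg_left (hC.top hb hK κ) (abs_nonneg _)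
      · rw [abs_neg]
        refine (Finset.abs_sum_le_sum_abs _ _).trans (Finset.sum_le_sum fun i _ => ?_)
        rw [abs_mul]
        exact mul_le_mul_of_nonneg_left
          ((hC.small1 hb hK κ i.succ (Fin.succ_ne_zero i)).trans (herr G N)) (abs_nonneg _)
    have h4 : |(c κ 0 : ℝ)| * err q K G N + ∑ i : Fin (q κ), |(c κ i.succ : ℝ)| * err q K G N ≤
        cm * err q K G N := by
      rw [← Finset.sum_mul, ← add_mul, hcm, Fin.sum_univ_succ]
      refine mul_le_mul_of_nonneg_right (by linarith) ?_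
      exact le_trans (by positivity) (herr G N)
    nlinarith [herr G N, (by positivity : (0:ℝ) ≤ K * (1 / 2) ^ G)]

end Pool.Agent.V1189.SB
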