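import Pool.Agent.V1189.SB.Core

/-!
# Sums of few terms in several coprime bases: the inequality

Author: helper89.
-/

set_option autoImplicit false

namespace Pool.Agent.V1189.SB

open Finset Filter Topology Pool.Agent.TH461.SST

variable {k : ℕ}

/-- the index set of all terms -/
abbrev Idx (q : Fin k → ℕ) : Type := (κ : Fin k) × Fin (q κ + 1)

/-- the forms at the real place -/
def M0 (q : Fin k → ℕ) (κ1 : Fin k) : Matrix (Idx q) (Idx q) ℤ := fun l j =>
  if l.2 = 0 ∧ l.1 ≠ κ1 then (if j.1 = l.1 then 1 else 0) - (if j.1 = κ1 then 1 else 0)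
  else if l = j then 1 else 0

lemma M0_special (q : Fin k → ℕ) (κ1 κ : Fin k) (h : κ ≠ κ1) (v : Idx q → ℤ) :
    ∑ j, M0 q κ1 ⟨κ, 0⟩ j * v j = ∑ i, v ⟨κ, i⟩ - ∑ i, v ⟨κ1, i⟩ := by
  classical
  have h1 : ∀ j : Idx q, M0 q κ1 ⟨κ, 0⟩ j * v j =
      (if j.1 = κ then v j else 0) - (if j.1 = κ1 then v j else 0) := by
    intro j
    unfold M0
    rw [if_pos ⟨rfl, h⟩]
    split_ifs <;> ring
  rw [Finset.sum_congr rfl fun j _ => h1 j, Finset.sum_sub_distrib, Fintype.sum_sigma,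
    Fintype.sum_sigma]
  congr 1
  · rw [Finset.sum_eq_single κ (fun ν _ hν => by simp [hν]) (fun h => absurd (mem_univ _) h)]
    simp
  · rw [Finset.sum_eq_single κ1 (fun ν _ hν => by simp [hν]) (fun h => absurd (mem_univ _) h)]
    simp

lemma M0_other (q : Fin k → ℕ) (κ1 : Fin k) (l : Idx q) (h : ¬ (l.2 = 0 ∧ l.1 ≠ κ1))
    (v : Idx q → ℤ) : ∑ j, M0 q κ1 l j * v j = v l := by
  classical
  unfold M0
  simp only [if_neg h]
  simp

lemma M0_det (q : Fin k → ℕ) (κ1 : Fin k) : (M0 q κ1).det ≠ 0 := by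
  classical
  intro h
  obtain ⟨v, hv0, hv⟩ := Matrix.exists_mulVec_eq_zero_iff.2 h
  have h1 : ∀ l, ∑ j, M0 q κ1 l j * v j = 0 := fun l => congrFun hv l
  have h2 : ∀ l : Idx q, ¬ (l.2 = 0 ∧ l.1 ≠ κ1) → v l = 0 := fun l hl => by
    rw [← M0_other q κ1 l hl v]
    exact h1 l
  apply hv0
  funext l
  by_cases hl : l.2 = 0 ∧ l.1 ≠ κ1
  · obtain ⟨κ, i⟩ := l
    obtain ⟨hi, hκ⟩ := hl
    have hi' : i = (0 : Fin (q κ + 1)) := hi
    subst hi'
    have h3 := h1 ⟨κ, 0⟩
    rw [M0_special q κ1 κ hκ v, Fin.sum_univ_succ,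
      Finset.sum_eq_zero (s := univ) (f := fun i : Fin (q κ) => v ⟨κ, i.succ⟩) (fun i _ =>
        h2 ⟨κ, i.succ⟩ (fun h => Fin.succ_ne_zero i h.1)),
      Finset.sum_eq_zero (s := univ) (f := fun i => v ⟨κ1, i⟩) (fun i _ =>
        h2 ⟨κ1, i⟩ (fun h => h.2 rfl))] at h3
    simpa using h3
  · exact h2 l hl

set_option maxHeartbeats 4000000 in
theorem core (hk : 1 ≤ k) (b : Fin k → ℕ) (hb : ∀ κ, 2 ≤ b κ)
    (hcop : ∀ κ κ', κ ≠ κ' → Nat.Coprime (b κ) (b κ')) (x : ℝ) (hx : Irrational x) (K : ℝ)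
    (hK : 1 ≤ K) (q : Fin k → ℕ) (ε : ℝ) (hε : 0 < ε) :
    ∃ (G : ℕ) (C : ℝ), ∀ (N : ℝ) (s : ∀ κ, Fin (q κ + 1) → ℕ) (y : ∀ κ, Fin (q κ + 1) → ℤ),
      Conf b q x K G N s y →
      ((k : ℝ) - 1 - ε) * N ≤ ∑ κ, ∑ i, Real.log |(y κ i : ℝ)| + C := by
  classical
  by_contra hcon
  push Not at hcon
  have key : ∀ t : ℕ, ∃ (N : ℝ) (s : ∀ κ, Fin (q κ + 1) → ℕ) (y : ∀ κ, Fin (q κ + 1) → ℤ),
      Conf b q x K t N s y ∧
      ∑ κ, ∑ i, Real.log |(y κ i : ℝ)| + t < ((k : ℝ) - 1 - ε) * N := fun t => hcon t t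
  choose N0 s0 y0 hC0 hlt0 using key
  have hx0 : 0 < |x| := abs_pos.2 hx.ne_zero
  obtain ⟨κ1⟩ : Nonempty (Fin k) := ⟨⟨0, hk⟩⟩
  have hbR : ∀ κ, (2 : ℝ) ≤ b κ := fun κ => by exact_mod_cast hb κ
  have hbpos : ∀ κ, (0 : ℝ) < b κ := fun κ => by linarith [hbR κ]
  have hlogb : ∀ κ, 0 < Real.log (b κ) := fun κ => Real.log_pos (by linarith [hbR κ])
  have hkR : (1 : ℝ) ≤ k := by exact_mod_cast hk
  have hlogint : ∀ n : ℤ, 0 ≤ Real.log |(n : ℝ)| := by
    intro n
    by_cases hn : n = 0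
    · rw [hn]; simp
    · refine Real.log_nonneg ?_
      have : (1 : ℤ) ≤ |n| := Int.one_le_abs hn
      exact_mod_cast this
  have hN0 : ∀ t, 0 ≤ N0 t := by
    intro t
    have h1 := (hC0 t).le κ1 0
    have h2 : (1 : ℝ) ≤ (b κ1 : ℝ) ^ s0 t κ1 0 := one_le_pow₀ (by linarith [hbR κ1])
    by_contra h
    push Not at h
    have h3 : Real.exp (N0 t) < Real.exp 0 := Real.exp_lt_exp.2 h
    rw [Real.exp_zero] at h3
    linarith
  have hNt : ∀ t : ℕ, (t : ℝ) / k ≤ N0 t := by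
    intro t
    rw [div_le_iff₀ (by linarith)]
    have h1 := hlt0 t
    have h2 : 0 ≤ ∑ κ, ∑ i, Real.log |(y0 t κ i : ℝ)| :=
      Finset.sum_nonneg fun κ _ => Finset.sum_nonneg fun i _ => hlogint _
    nlinarith [hN0 t]
  have hNtend : Tendsto N0 atTop atTop :=
    tendsto_atTop_mono hNt (tendsto_natCast_atTop_atTop.atTop_div_const (by linarith))
  have herr0 : Tendsto (fun t => err q K t (N0 t)) atTop (𝓝 0) := by
    unfold err
    have h1 : Tendsto (fun t => K * Real.exp (-N0 t)) atTop (𝓝 (K * 0)) :=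
      (Real.tendsto_exp_atBot.comp (tendsto_neg_atTop_atBot.comp hNtend)).const_mul K
    have h2 : Tendsto (fun t : ℕ => (∑ κ, ((q κ : ℝ) + 1)) * (K * (1 / 2) ^ t)) atTop
        (𝓝 ((∑ κ, ((q κ : ℝ) + 1)) * (K * 0))) :=
      ((tendsto_pow_atTop_nhds_zero_of_lt_one (by norm_num) (by norm_num)).const_mul K).const_mul _
    have h3 := h1.add h2
    simpa using h3
  -- constants
  obtain ⟨c0, hc0⟩ : ∃ c0 : ℝ, c0 = Real.log (2 * K) - Real.log (|x| / 2) := ⟨_, rfl⟩
  obtain ⟨c1, hc1⟩ : ∃ c1 : ℝ, c1 = Real.log (K + 2 * |x| + 1) := ⟨_, rfl⟩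
  have hc10 : 0 ≤ c1 := by rw [hc1]; exact Real.log_nonneg (by linarith)
  have hlogK : 0 ≤ Real.log (2 * K) := Real.log_nonneg (by linarith)
  obtain ⟨t0, ht0⟩ : ∃ t0 : ℕ, ∀ t ≥ t0, err q K t (N0 t) ≤ |x| / 2 ∧ 1 ≤ N0 t ∧
      ((k : ℝ) - 1) * c0 ≤ t := by
    have h1 : ∀ᶠ t in atTop, err q K t (N0 t) ≤ |x| / 2 :=
      (herr0.eventually (gt_mem_nhds (by positivity : 0 < |x| / 2))).mono fun t h => h.le
    have h2 := hNtend.eventually_ge_atTop 1
    have h3 := (tendsto_natCast_atTop_atTop (R := ℝ)).eventually_ge_atTop (((k : ℝ) - 1) * c0)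
    exact eventually_atTop.1 (h1.and (h2.and h3))
  obtain ⟨N, hN⟩ : ∃ N : ℕ → ℝ, N = fun t => N0 (t + t0) := ⟨_, rfl⟩
  obtain ⟨s, hs⟩ : ∃ s : ℕ → ∀ κ, Fin (q κ + 1) → ℕ, s = fun t => s0 (t + t0) := ⟨_, rfl⟩
  obtain ⟨y, hy⟩ : ∃ y : ℕ → ∀ κ, Fin (q κ + 1) → ℤ, y = fun t => y0 (t + t0) := ⟨_, rfl⟩
  have hC : ∀ t, Conf b q x K (t + t0) (N t) (s t) (y t) := fun t => by
    rw [hN, hs, hy]; exact hC0 (t + t0)
  have hlt : ∀ t : ℕ, ∑ κ, ∑ i, Real.log |(y t κ i : ℝ)| + ((t + t0 : ℕ) : ℝ) <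
      ((k : ℝ) - 1 - ε) * N t := fun t => by
    rw [hN, hy]; exact hlt0 (t + t0)
  have hE : ∀ t : ℕ, err q K (t + t0) (N t) ≤ |x| / 2 := fun t => by
    rw [hN]; exact (ht0 (t + t0) (by omega)).1
  have hN1 : ∀ t, 1 ≤ N t := fun t => by rw [hN]; exact (ht0 (t + t0) (by omega)).2.1
  have hct : ∀ t : ℕ, ((k : ℝ) - 1) * c0 ≤ ((t + t0 : ℕ) : ℝ) := fun t =>
    (ht0 (t + t0) (by omega)).2.2
  have hNtend' : Tendsto N atTop atTop := by
    rw [hN]
    exact hNtend.comp (tendsto_add_atTop_nat t0)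
  have herr' : Tendsto (fun t : ℕ => err q K (t + t0) (N t)) atTop (𝓝 0) := by
    rw [hN]
    exact herr0.comp (tendsto_add_atTop_nat t0)
  -- the top terms
  have htop : ∀ t κ, |x| / 2 ≤ |tm b (s t) (y t) κ 0| := by
    intro t κ
    have h1 := (hC t).top hb hK κ
    have h2 := hE t
    have h3 : |x| ≤ |x - tm b (s t) (y t) κ 0| + |tm b (s t) (y t) κ 0| := by
      refine le_trans (le_of_eq ?_) (abs_add_le _ _)
      congr 1; ring
    push_cast at h1 h2 ⊢
    linarith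
  have hyne : ∀ t κ i, y t κ i ≠ 0 := by
    intro t κ i
    by_cases hi : i = 0
    · intro h
      have h1 := htop t κ
      unfold tm at h1
      rw [hi] at h
      rw [h, Int.cast_zero, zero_div, abs_zero] at h1
      linarith
    · exact (hC t).ne κ i hi
  -- the exponents
  obtain ⟨m, hm⟩ : ∃ m : ℕ → Fin k → ℕ, m = fun t κ => univ.sup (s t κ) := ⟨_, rfl⟩
  have hsm : ∀ t κ i, s t κ i ≤ m t κ := fun t κ i => by
    rw [hm]; exact Finset.le_sup (f := s t κ) (mem_univ i)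
  have hmN : ∀ t κ, (m t κ : ℝ) * Real.log (b κ) ≤ N t := by
    intro t κ
    obtain ⟨i, -, hi⟩ := Finset.exists_mem_eq_sup univ ⟨0, mem_univ (0 : Fin (q κ + 1))⟩ (s t κ)
    have h1 := (hC t).le κ i
    have h2 : m t κ = s t κ i := by rw [hm]; exact hi
    rw [h2, ← Real.log_pow, ← Real.log_exp (N t)]
    exact Real.log_le_log (pow_pos (hbpos κ) _) h1
  obtain ⟨B, hB⟩ : ∃ B : ℕ → ℝ, B = fun t => ∏ κ, (b κ : ℝ) ^ m t κ := ⟨_, rfl⟩
  have hBpos : ∀ t, 0 < B t := fun t => by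
    rw [hB]; exact Finset.prod_pos fun κ _ => pow_pos (hbpos κ) _
  have hlogB : ∀ t, Real.log (B t) = ∑ κ, (m t κ : ℝ) * Real.log (b κ) := by
    intro t
    rw [hB, Real.log_prod fun κ _ => (pow_pos (hbpos κ) _).ne']
    exact Finset.sum_congr rfl fun κ _ => Real.log_pow _ _
  have hlogBk : ∀ t, Real.log (B t) ≤ k * N t := by
    intro t
    rw [hlogB]
    refine (Finset.sum_le_sum fun κ _ => hmN t κ).trans ?_
    rw [Finset.sum_const, Finset.card_univ, Fintype.card_fin, nsmul_eq_mul]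
  have hlogB0 : ∀ t, 0 ≤ Real.log (B t) := by
    intro t
    rw [hlogB]
    exact Finset.sum_nonneg fun κ _ => mul_nonneg (Nat.cast_nonneg _) (hlogb κ).le
  -- the vectors
  obtain ⟨X, hX⟩ : ∃ X : ℕ → Idx q → ℤ, X = fun t l =>
      y t l.1 l.2 * (b l.1 : ℤ) ^ (m t l.1 - s t l.1 l.2) * cof b (m t) l.1 := ⟨_, rfl⟩
  have hXB : ∀ (t : ℕ) (l : Idx q), (X t l : ℝ) = B t * tm b (s t) (y t) l.1 l.2 := by
    intro t l
    rw [hX, hB]
    have h1 : ((cof b (m t) l.1 : ℤ) : ℝ) * (b l.1 : ℝ) ^ m t l.1 = ∏ κ, (b κ : ℝ) ^ m t κ := by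
      have := cof_mul b (m t) l.1
      rw [mul_comm]
      exact_mod_cast this
    simp only
    rw [← h1]
    push_cast
    rw [pow_sub₀ _ (hbpos l.1).ne' (hsm t l.1 l.2)]
    unfold tm
    field_simp
  have htne : ∀ (t : ℕ) (l : Idx q), tm b (s t) (y t) l.1 l.2 ≠ 0 := by
    intro t l
    unfold tm
    exact div_ne_zero (by exact_mod_cast hyne t l.1 l.2) (pow_pos (hbpos _) _).ne'
  have hXne : ∀ (t : ℕ) (l : Idx q), X t l ≠ 0 := by
    intro t l h
    have h1 := hXB t l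
    rw [h, Int.cast_zero] at h1
    exact (mul_ne_zero (hBpos t).ne' (htne t l)) h1.symm
  have hlogX : ∀ (t : ℕ) (l : Idx q), Real.log |(X t l : ℝ)| =
      Real.log |(y t l.1 l.2 : ℝ)| + (Real.log (B t) - s t l.1 l.2 * Real.log (b l.1)) := by
    intro t l
    rw [hXB, abs_mul, abs_of_pos (hBpos t), Real.log_mul (hBpos t).ne' (abs_ne_zero.2 (htne t l))]
    unfold tm
    rw [abs_div, abs_of_pos (pow_pos (hbpos l.1) _), Real.log_div
      (abs_ne_zero.2 (by exact_mod_cast hyne t l.1 l.2)) (pow_pos (hbpos _) _).ne', Real.log_pow]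
    ring
  have htle : ∀ (t : ℕ) (l : Idx q), |tm b (s t) (y t) l.1 l.2| ≤ K + 2 * |x| + 1 := by
    intro t l
    by_cases hi : l.2 = 0
    · rw [hi]
      have h1 := (hC t).top hb hK l.1
      have h2 := hE t
      have h3 : |tm b (s t) (y t) l.1 0| ≤ |x - tm b (s t) (y t) l.1 0| + |x| := by
        have h4 : tm b (s t) (y t) l.1 0 = -(x - tm b (s t) (y t) l.1 0) + x := by ring
        calc |tm b (s t) (y t) l.1 0| = |-(x - tm b (s t) (y t) l.1 0) + x| := by rw [← h4]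
          _ ≤ _ := by
            refine (abs_add_le _ _).trans ?_
            rw [abs_neg]
      push_cast at h1 h2
      linarith
    · refine ((hC t).small1 hb hK l.1 l.2 hi).trans ?_
      have h1 : ((1 : ℝ) / 2) ^ (t + t0) ≤ 1 := pow_le_one₀ (by norm_num) (by norm_num)
      have h2 : K * (1 / 2) ^ (t + t0) ≤ K * 1 := mul_le_mul_of_nonneg_left h1 (by linarith)
      linarith
  have hlogXle : ∀ (t : ℕ) (l : Idx q), Real.log |(X t l : ℝ)| ≤ k * N t + c1 := by
    intro t l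
    rw [hXB, abs_mul, abs_of_pos (hBpos t), Real.log_mul (hBpos t).ne' (abs_ne_zero.2 (htne t l))]
    have h1 : Real.log |tm b (s t) (y t) l.1 l.2| ≤ c1 := by
      rw [hc1]
      exact Real.log_le_log (abs_pos.2 (htne t l)) (htle t l)
    linarith [hlogBk t]
  -- the sizes
  obtain ⟨A, hA⟩ : ∃ A : ℕ → Idx q → ℝ, A = fun t l =>
      if l.2 = 0 ∧ l.1 ≠ κ1 then 2 * K * Real.exp (-N t) * B t else |(X t l : ℝ)| := ⟨_, rfl⟩
  obtain ⟨e, he⟩ : ∃ e : ℕ → Fin k → Idx q → ℕ, e = fun t v l =>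
      if v = l.1 then m t v - s t l.1 l.2 else m t v := ⟨_, rfl⟩
  have hesum : ∀ (t : ℕ) (l : Idx q), ∑ v, (e t v l : ℝ) * Real.log (b v) =
      Real.log (B t) - s t l.1 l.2 * Real.log (b l.1) := by
    intro t l
    rw [hlogB, eq_sub_iff_add_eq, ← Finset.add_sum_erase univ _ (mem_univ l.1),
      ← Finset.add_sum_erase univ (fun κ => (m t κ : ℝ) * Real.log (b κ)) (mem_univ l.1)]
    have h1 : (e t l.1 l : ℝ) = m t l.1 - s t l.1 l.2 := by
      rw [he]
      simp only [if_true]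
      rw [Nat.cast_sub (hsm t l.1 l.2)]
    have h2 : ∑ v ∈ univ.erase l.1, (e t v l : ℝ) * Real.log (b v) =
        ∑ v ∈ univ.erase l.1, (m t v : ℝ) * Real.log (b v) := by
      refine Finset.sum_congr rfl fun v hv => ?_
      rw [he]
      simp only [if_neg (Finset.ne_of_mem_erase hv)]
    rw [h1, h2]
    ring
  have hApos : ∀ (t : ℕ) (l : Idx q), 0 < A t l := by
    intro t l
    rw [hA]
    simp only
    split_ifs
    · have := hBpos t
      positivity
    · exact abs_pos.2 (by exact_mod_cast hXne t l)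
  have hlogA : ∀ (t : ℕ) (l : Idx q), Real.log (A t l) ≤ Real.log |(X t l : ℝ)| +
      if l.2 = 0 ∧ l.1 ≠ κ1 then c0 - N t else 0 := by
    intro t l
    rw [hA]
    simp only
    split_ifs with hl
    · rw [Real.log_mul (by positivity) (hBpos t).ne', Real.log_mul (by positivity)
        (Real.exp_pos _).ne', Real.log_exp, hXB, abs_mul, abs_of_pos (hBpos t),
        Real.log_mul (hBpos t).ne' (abs_ne_zero.2 (htne t l))]
      have h1 : Real.log (|x| / 2) ≤ Real.log |tm b (s t) (y t) l.1 l.2| := by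
        refine Real.log_le_log (by positivity) ?_
        rw [hl.1]
        exact htop t l.1
      linarith
    · linarith
  have hspecial : ∀ z : ℝ, ∑ l : Idx q, (if l.2 = 0 ∧ l.1 ≠ κ1 then z else 0) = ((k : ℝ) - 1) * z := by
    intro z
    rw [Fintype.sum_sigma]
    have h1 : ∀ κ : Fin k, ∑ i : Fin (q κ + 1), (if i = 0 ∧ κ ≠ κ1 then z else 0) =
        z - if κ = κ1 then z else 0 := by
      intro κ
      rw [Finset.sum_eq_single 0 (fun i _ hi => by simp [hi]) (fun h => absurd (mem_univ _) h)]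
      by_cases hκ : κ = κ1
      · simp [hκ]
      · simp [hκ]
    rw [Finset.sum_congr rfl fun κ _ => h1 κ, Finset.sum_sub_distrib, Finset.sum_const,
      Finset.card_univ, Fintype.card_fin, nsmul_eq_mul, Finset.sum_ite_eq' univ κ1]
    simp only [mem_univ, if_true]
    ring
  haveI : Nonempty (Idx q) := ⟨⟨κ1, 0⟩⟩
  obtain ⟨c, hc0', hcf⟩ := Pool.Agent.V1189.RT.subZ k (M0 q κ1) (fun _ => (1 : Matrix (Idx q) (Idx q) ℤ))
    b ⟨M0_det q κ1, fun v => by rw [Matrix.det_one]; exact one_ne_zero, hb, hcop⟩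
    (k + 1 + Real.log (2 * K) + c1) ε (by linarith) hε N hNtend' e A (fun t => by
      have hNt1 := hN1 t
      refine ⟨fun v l => ?_, hApos t, fun l => ?_, ?_⟩
      · have h1 : (e t v l : ℝ) ≤ m t v := by
          rw [he]
          simp only
          split_ifs
          · exact_mod_cast Nat.sub_le _ _
          · exact le_rfl
        have h2 := mul_le_mul_of_nonneg_right h1 (hlogb v).le
        have h3 := hmN t v
        nlinarith
      · rw [abs_le]
        have h1 : |Real.log (2 * K * Real.exp (-N t) * B t)| ≤ Real.log (2 * K) + N t + k * N t := by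
          rw [Real.log_mul (by positivity) (hBpos t).ne', Real.log_mul (by positivity)
            (Real.exp_pos _).ne', Real.log_exp, abs_le]
          constructor <;> linarith [hlogBk t, hlogB0 t]
        rw [hA]
        simp only
        split_ifs
        · rw [abs_le] at h1
          constructor <;> nlinarith
        · have h2 : 0 ≤ Real.log |(X t l : ℝ)| := hlogint _
          have h3 := hlogXle t l
          constructor <;> nlinarith
      · have h1 : ∑ l, Real.log (A t l) ≤ ∑ l : Idx q, Real.log |(X t l : ℝ)| +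
            ((k : ℝ) - 1) * (c0 - N t) := by
          rw [← hspecial, ← Finset.sum_add_distrib]
          exact Finset.sum_le_sum fun l _ => hlogA t l
        have h2 : ∑ l : Idx q, Real.log |(X t l : ℝ)| = ∑ κ, ∑ i, Real.log |(y t κ i : ℝ)| +
            ∑ l : Idx q, (Real.log (B t) - s t l.1 l.2 * Real.log (b l.1)) := by
          rw [Finset.sum_congr rfl fun l _ => hlogX t l, Finset.sum_add_distrib,
            Fintype.sum_sigma (f := fun l : Idx q => Real.log |(y t l.1 l.2 : ℝ)|)]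
        have h3 : ∑ v, ∑ l, (e t v l : ℝ) * Real.log (b v) =
            ∑ l : Idx q, (Real.log (B t) - s t l.1 l.2 * Real.log (b l.1)) := by
          rw [Finset.sum_comm]
          exact Finset.sum_congr rfl fun l _ => hesum t l
        rw [h3]
        have h4 := hlt t
        have h5 := hct t
        nlinarith) X (fun t h => hXne t ⟨κ1, 0⟩ (congrFun h _)) (fun t => by
      refine ⟨fun l => ?_, fun v l => ?_⟩
      · by_cases hl : l.2 = 0 ∧ l.1 ≠ κ1
        · obtain ⟨κ, i⟩ := l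
          obtain ⟨hi, hκ⟩ := hl
          have hi' : i = (0 : Fin (q κ + 1)) := hi
          subst hi'
          rw [M0_special q κ1 κ hκ, hA]
          simp only
          rw [if_pos ⟨trivial, hκ⟩]
          push_cast
          simp only [hXB]
          rw [← Finset.mul_sum, ← Finset.mul_sum, ← mul_sub, abs_mul, abs_of_pos (hBpos t)]
          have h1 := (hC t).appr κ
          have h2 := (hC t).appr κ1
          have h3 : |∑ i, tm b (s t) (y t) κ i - ∑ i, tm b (s t) (y t) κ1 i| ≤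
              2 * K * Real.exp (-N t) := by
            unfold tm
            rw [abs_le] at h1 h2 ⊢
            constructor <;> linarith [h1.1, h1.2, h2.1, h2.2]
          calc B t * |∑ i, tm b (s t) (y t) κ i - ∑ i, tm b (s t) (y t) κ1 i| ≤
              B t * (2 * K * Real.exp (-N t)) := mul_le_mul_of_nonneg_left h3 (hBpos t).le
            _ = _ := by ring
        · rw [M0_other q κ1 l hl, hA]
          simp only
          rw [if_neg hl]
      · have h1 : ∑ j, (1 : Matrix (Idx q) (Idx q) ℤ) l j * X t j = X t l := by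
          simp [Matrix.one_apply]
        rw [h1, hX, he]
        simp only
        split_ifs with hv
        · subst hv
          exact Dvd.dvd.mul_right (Dvd.dvd.mul_left dvd_rfl _) _
        · refine Dvd.dvd.mul_left ?_ _
          unfold cof
          exact Finset.dvd_prod_of_mem (fun μ => (b μ : ℤ) ^ m t μ)
            (mem_erase.2 ⟨hv, mem_univ v⟩))
  -- the relation
  obtain ⟨l0, hl0⟩ := Function.ne_iff.1 hc0'
  obtain ⟨δ, hδ, hno⟩ := norel b q hb hx hK (fun κ i => c ⟨κ, i⟩) l0.1 ⟨l0.2, hl0⟩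
  have h1 := (hcf.and_eventually (herr'.eventually (gt_mem_nhds hδ))).exists
  obtain ⟨t, ht1, ht2⟩ := h1
  obtain ⟨z, hz⟩ := integral b q hcop (s t) (y t) (m t) hb (hsm t) (fun κ i => c ⟨κ, i⟩) (by
    rw [← ht1, Fintype.sum_sigma]
    refine Finset.sum_congr rfl fun κ _ => Finset.sum_congr rfl fun i _ => ?_
    rw [hX]) l0.1
  exact hno (t + t0) (N t) (s t) (y t) (hC t) ht2 z hz

end Pool.Agent.V1189.SB
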