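import Pool.Agent.V1189.SB.Main

/-!
# Windows of digits with small periods in several coprime bases

Author: helper89.
-/

set_option autoImplicit false

namespace Pool.Agent.V1189.SB

open Finset

/-- windows in increasing order inside the first `n` places -/
def Windows {r : ℕ} (w l : Fin r → ℕ) (n : ℕ) : Prop :=
  (∀ i j, i < j → w i + l i ≤ w j) ∧ ∀ i, w i + l i ≤ n

/-- the digit of `x` at the place `j` after the point in base `b` -/
noncomputable def digit (b : ℕ) (x : ℝ) (j : ℕ) : ℤ := ⌊x * (b : ℝ) ^ j⌋ % (b : ℤ)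

/-- the digits at the places `w + 1, …, w + l` are periodic with a period at most `M` -/
def Simple (b : ℕ) (x : ℝ) (M w l : ℕ) : Prop :=
  ∃ p : ℕ, 1 ≤ p ∧ p ≤ M ∧ ∀ j, w < j → j + p ≤ w + l → digit b x (j + p) = digit b x j

lemma pieces (b : ℕ) (hb : 2 ≤ b) (x K : ℝ) (hK : 1 ≤ K) (E : ℕ → ℤ)
    (hE : ∀ j, |x * (b : ℝ) ^ j - E j| ≤ K) (G : ℕ) : ∀ (r : ℕ) (w l : Fin r → ℕ) (n : ℕ),
    Windows w l n → (∀ i, E (w i + l i) = (b : ℤ) ^ (l i) * E (w i)) →
    ∃ (q : ℕ) (s : Fin (q + 1) → ℕ) (y : Fin (q + 1) → ℤ), q ≤ r ∧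
      E n = ∑ i, y i * (b : ℤ) ^ (n - s i) ∧ (∀ i, s i ≤ n) ∧
      (∀ i j, i < j → |(y j : ℝ)| * (b : ℝ) ^ (s i + G) ≤ 2 * K * (b : ℝ) ^ s j) ∧
      (∀ i, i ≠ 0 → y i ≠ 0) ∧
      ∑ i, Real.log |(y i : ℝ)| ≤ ((n : ℝ) - ∑ i, (l i : ℝ)) * Real.log b +
        (r : ℝ) * (G * Real.log b) + (r + 1) * Real.log (2 * K + |x|) := by
  have hbR : (2 : ℝ) ≤ b := by exact_mod_cast hb
  have hb0 : (0 : ℝ) < b := by linarith
  have hL : 0 < Real.log b := Real.log_pos (by linarith)
  have hc : 0 ≤ Real.log (2 * K + |x|) := Real.log_nonneg (by linarith [abs_nonneg x])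
  intro r
  induction r with
  | zero =>
    intro w l n _ _
    refine ⟨0, fun _ => n, fun _ => E n, le_rfl, by simp, fun _ => le_rfl, ?_, ?_, ?_⟩
    · intro i j hij
      exact absurd hij (by
        have h1 := i.2
        have h2 := j.2
        rw [Fin.lt_def]
        omega)
    · intro i hi
      exact absurd (Fin.ext (by have := i.2; simp only [Fin.val_zero]; omega)) hi
    · simp only [Nat.cast_zero, Finset.univ_eq_empty, Finset.sum_empty, sub_zero, zero_mul,
        add_zero, zero_add, one_mul]
      have hsum : ∑ _i : Fin (0 + 1), Real.log |(E n : ℝ)| = Real.log |(E n : ℝ)| := by simp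
      rw [hsum]
      by_cases h0 : E n = 0
      · rw [h0]
        simp only [Int.cast_zero, abs_zero, Real.log_zero]
        positivity
      · have h1 : |(E n : ℝ)| ≤ (b : ℝ) ^ n * (2 * K + |x|) := by
          have h2 := hE n
          have h3 : |(E n : ℝ)| ≤ |x * (b : ℝ) ^ n - E n| + |x * (b : ℝ) ^ n| := by
            have h4 : (E n : ℝ) = -(x * (b : ℝ) ^ n - E n) + x * (b : ℝ) ^ n := by ring
            calc |(E n : ℝ)| = |-(x * (b : ℝ) ^ n - E n) + x * (b : ℝ) ^ n| := by rw [← h4]
              _ ≤ _ := by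
                refine (abs_add_le _ _).trans ?_
                rw [abs_neg]
          rw [abs_mul, abs_of_pos (pow_pos hb0 n)] at h3
          have h5 : (1 : ℝ) ≤ (b : ℝ) ^ n := one_le_pow₀ (by linarith)
          nlinarith [abs_nonneg x]
        have h2 := Real.log_le_log (abs_pos.2 (by exact_mod_cast h0)) h1
        rw [Real.log_mul (pow_pos hb0 n).ne' (by linarith [abs_nonneg x]), Real.log_pow] at h2
        exact h2
  | succ r ih =>
    intro w l n hW hrec
    have hbZ : (b : ℤ) ≠ 0 := by
      have : b ≠ 0 := by omega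
      exact_mod_cast this
    have hsuml : ∑ i, (l i : ℝ) = ∑ i : Fin r, (l i.castSucc : ℝ) + l (Fin.last r) :=
      Fin.sum_univ_castSucc _
    have hWl := hW.2 (Fin.last r)
    have hG0 : 0 ≤ (G : ℝ) * Real.log b := mul_nonneg (Nat.cast_nonneg _) hL.le
    by_cases hl : l (Fin.last r) < G
    · obtain ⟨q, s, y, h1, h2, h3, h4, h5, h6⟩ := ih (fun i => w i.castSucc) (fun i => l i.castSucc)
        n ⟨fun i j hij => hW.1 _ _ (Fin.castSucc_lt_castSucc_iff.2 hij), fun i => hW.2 _⟩
        (fun i => hrec _)
      refine ⟨q, s, y, by omega, h2, h3, h4, h5, h6.trans ?_⟩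
      rw [hsuml]
      have h7 : (l (Fin.last r) : ℝ) * Real.log b ≤ G * Real.log b :=
        mul_le_mul_of_nonneg_right (by exact_mod_cast hl.le) hL.le
      push_cast
      nlinarith
    · push Not at hl
      obtain ⟨q, s, y, h1, h2, h3, h4, h5, h6⟩ := ih (fun i => w i.castSucc) (fun i => l i.castSucc)
        (w (Fin.last r)) ⟨fun i j hij => hW.1 _ _ (Fin.castSucc_lt_castSucc_iff.2 hij),
          fun i => hW.1 _ _ (Fin.castSucc_lt_last i)⟩ (fun i => hrec _)
      obtain ⟨v, hv⟩ : ∃ v, v = w (Fin.last r) + l (Fin.last r) := ⟨_, rfl⟩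
      have hvn : v ≤ n := by rw [hv]; exact hWl
      obtain ⟨yn, hyn⟩ : ∃ yn, yn = E n - (b : ℤ) ^ (n - v) * E v := ⟨_, rfl⟩
      have hEn : E n = ∑ i, y i * (b : ℤ) ^ (n - s i) + yn := by
        have h7 : (b : ℤ) ^ (n - v) * E v = ∑ i, y i * (b : ℤ) ^ (n - s i) := by
          have h8 := hrec (Fin.last r)
          rw [← hv] at h8
          rw [h8, ← mul_assoc, ← pow_add, h2, Finset.mul_sum]
          refine Finset.sum_congr rfl fun i _ => ?_
          have h9 := h3 i
          rw [mul_left_comm, ← pow_add]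
          congr 2
          omega
        rw [hyn, ← h7]
        ring
      have hynle : |(yn : ℝ)| ≤ 2 * K * (b : ℝ) ^ (n - v) := by
        have h7 := hE n
        have h8 := hE v
        have h9 : (yn : ℝ) = -(x * (b : ℝ) ^ n - E n) + (b : ℝ) ^ (n - v) * (x * (b : ℝ) ^ v - E v) := by
          rw [hyn]
          push_cast
          have h10 : (b : ℝ) ^ (n - v) * (b : ℝ) ^ v = (b : ℝ) ^ n := by
            rw [← pow_add]
            congr 1
            omega
          rw [← h10]
          ring
        have h10 : |(yn : ℝ)| ≤ |x * (b : ℝ) ^ n - E n| +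
            (b : ℝ) ^ (n - v) * |x * (b : ℝ) ^ v - E v| := by
          rw [h9]
          refine (abs_add_le _ _).trans (le_of_eq ?_)
          rw [abs_neg, abs_mul, abs_of_pos (pow_pos hb0 (n - v))]
        have h11 : (1 : ℝ) ≤ (b : ℝ) ^ (n - v) := one_le_pow₀ (by linarith)
        nlinarith
      have hlen : (w (Fin.last r) : ℝ) + l (Fin.last r) = v := by rw [hv]; push_cast; ring
      have hvn' : (v : ℝ) ≤ n := by exact_mod_cast hvn
      have hr0 : (0 : ℝ) ≤ r := Nat.cast_nonneg _
      by_cases hy0 : yn = 0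
      · refine ⟨q, s, y, by omega, by rw [hEn, hy0, add_zero], fun i => by
          have := h3 i
          omega, h4, h5, h6.trans ?_⟩
        rw [hsuml]
        push_cast
        nlinarith
      · refine ⟨q + 1, Fin.snoc (α := fun _ => ℕ) s n, Fin.snoc (α := fun _ => ℤ) y yn, by omega,
          ?_, ?_, ?_, ?_, ?_⟩
        · rw [Fin.sum_univ_castSucc]
          simp only [Fin.snoc_castSucc, Fin.snoc_last, Nat.sub_self, pow_zero, mul_one]
          exact hEn
        · intro i
          refine Fin.lastCases ?_ (fun i => ?_) i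
          · simp
          · simp only [Fin.snoc_castSucc]
            have := h3 i
            omega
        · intro i j hij
          rcases Fin.eq_castSucc_or_eq_last j with ⟨j', rfl⟩ | rfl
          · rcases Fin.eq_castSucc_or_eq_last i with ⟨i', rfl⟩ | rfl
            · simp only [Fin.snoc_castSucc]
              exact h4 i' j' (Fin.castSucc_lt_castSucc_iff.1 hij)
            · exact absurd hij (not_lt.2 (Fin.le_last _))
          · rcases Fin.eq_castSucc_or_eq_last i with ⟨i', rfl⟩ | rfl
            · simp only [Fin.snoc_castSucc, Fin.snoc_last]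
              have h7 := h3 i'
              have h8 : (b : ℝ) ^ (s i' + G) ≤ (b : ℝ) ^ v :=
                pow_le_pow_right₀ (by linarith) (by omega)
              calc |(yn : ℝ)| * (b : ℝ) ^ (s i' + G) ≤ (2 * K * (b : ℝ) ^ (n - v)) * (b : ℝ) ^ v :=
                    mul_le_mul hynle h8 (by positivity) (by positivity)
                _ = 2 * K * (b : ℝ) ^ n := by
                  rw [mul_assoc, ← pow_add]
                  congr 2
                  omega
            · exact absurd hij (lt_irrefl _)
        · intro i hi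
          rcases Fin.eq_castSucc_or_eq_last i with ⟨i', rfl⟩ | rfl
          · simp only [Fin.snoc_castSucc]
            exact h5 i' (fun h => hi (by rw [h]; rfl))
          · simp only [Fin.snoc_last]
            exact hy0
        · rw [Fin.sum_univ_castSucc]
          simp only [Fin.snoc_castSucc, Fin.snoc_last]
          have h7 : Real.log |(yn : ℝ)| ≤ Real.log (2 * K + |x|) + ((n : ℝ) - v) * Real.log b := by
            have h8 := Real.log_le_log (abs_pos.2 (by exact_mod_cast hy0)) hynle
            rw [Real.log_mul (by linarith) (pow_pos hb0 _).ne', Real.log_pow,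
              Nat.cast_sub hvn] at h8
            have h9 : Real.log (2 * K) ≤ Real.log (2 * K + |x|) :=
              Real.log_le_log (by linarith) (by linarith [abs_nonneg x])
            linarith
          rw [hsuml]
          push_cast
          nlinarith

end Pool.Agent.V1189.SB
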